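import Pool.Graph.R_pool_sql_team_seeded_3997aac3.Results.MP_93c8fe_an.GelfandHilbertNumbers

/-!
# Gelfand and Hilbert numbers of the identity `ℓ₂^N → ℓ₁^N`
-/

set_option autoImplicit false

open Module Set Filter Metric
open scoped ENNReal InnerProductSpace

noncomputable section

namespace Pool.Agent.KS6_83.GH

open Pool.Agent.Results.MP_93c8fe_an.GelfandHilbertNumbers

/-- The identity map from `ℓ₂^N` to `ℓ₁^N`. -/
def idN (N : ℕ) : EuclideanSpace ℝ (Fin N) →L[ℝ] PiLp 1 (fun _ : Fin N => ℝ) :=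
  ((PiLp.continuousLinearEquiv 1 ℝ (fun _ : Fin N => ℝ)).symm :
    (Fin N → ℝ) →L[ℝ] PiLp 1 (fun _ : Fin N => ℝ)) ∘L
    ((PiLp.continuousLinearEquiv 2 ℝ (fun _ : Fin N => ℝ)) :
      EuclideanSpace ℝ (Fin N) →L[ℝ] (Fin N → ℝ))

lemma idN_apply (N : ℕ) (x : EuclideanSpace ℝ (Fin N)) (i : Fin N) : idN N x i = x i := rfl

lemma norm_idN (N : ℕ) (x : EuclideanSpace ℝ (Fin N)) : ‖idN N x‖ = ∑ i, |x i| := by
  rw [PiLp.norm_eq_of_L1]; rfl

/-- the `i`-th unit vector -/
abbrev ee (N : ℕ) (i : Fin N) : EuclideanSpace ℝ (Fin N) := EuclideanSpace.single i (1 : ℝ)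

lemma inner_ee (N : ℕ) (i : Fin N) (x : EuclideanSpace ℝ (Fin N)) : ⟪ee N i, x⟫_ℝ = x i := by
  simp [EuclideanSpace.inner_single_left]

lemma inner_ee' (N : ℕ) (i : Fin N) (x : EuclideanSpace ℝ (Fin N)) : ⟪x, ee N i⟫_ℝ = x i := by
  rw [real_inner_comm, inner_ee]

lemma trace_proj {N : ℕ} (W : Submodule ℝ (EuclideanSpace ℝ (Fin N))) :
    ∑ i, ‖W.starProjection (ee N i)‖ ^ 2 = finrank ℝ W := by
  let b := stdOrthonormalBasis ℝ W
  have h1 : ∀ i, ‖W.starProjection (ee N i)‖ ^ 2 = ∑ l, ((b l : EuclideanSpace ℝ (Fin N)) i) ^ 2 := by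
    intro i
    have h2 : ‖W.starProjection (ee N i)‖ = ‖W.orthogonalProjectionOnto (ee N i)‖ := rfl
    rw [h2, ← b.sum_sq_norm_inner_right]
    refine Finset.sum_congr rfl fun l _ => ?_
    rw [Submodule.inner_orthogonalProjectionOnto_eq_of_mem_left, inner_ee', Real.norm_eq_abs, sq_abs]
  simp only [h1]
  rw [Finset.sum_comm]
  have h3 : ∀ l, ∑ i, ((b l : EuclideanSpace ℝ (Fin N)) i) ^ 2 = 1 := by
    intro l
    rw [← EuclideanSpace.real_norm_sq_eq]
    have h4 : ‖(b l : EuclideanSpace ℝ (Fin N))‖ = 1 := b.orthonormal.1 l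
    rw [h4, one_pow]
  simp [h3]

/-- Every subspace of dimension `d` of `ℓ₂^N` contains a unit vector of `ℓ₁`-norm at least `√d`. -/
lemma exists_large {N : ℕ} (W : Submodule ℝ (EuclideanSpace ℝ (Fin N))) (hW : 0 < finrank ℝ W) :
    ∃ v ∈ W, ‖v‖ ≤ 1 ∧ √(finrank ℝ W) ≤ ‖idN N v‖ := by
  let P := W.starProjection
  let ε : (Fin N → Bool) → EuclideanSpace ℝ (Fin N) := fun s =>
    WithLp.toLp 2 fun i => if s i then (1 : ℝ) else -1
  have hε : ∀ s i, ε s i = if s i then (1 : ℝ) else -1 := fun s i => rfl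
  obtain ⟨s, hs⟩ := Finite.exists_max (fun s : Fin N → Bool => ‖P (ε s)‖)
  have hPP : ∀ x y, ⟪P x, y⟫_ℝ = ⟪P x, P y⟫_ℝ := by
    intro x y
    have h1 : P (P x) = P x := (Submodule.starProjection_eq_self_iff).2 (W.starProjection_apply_mem x)
    conv_lhs => rw [← h1]
    exact Submodule.inner_starProjection_left_eq_right W _ _
  have hi : ∀ i, ‖P (ee N i)‖ ^ 2 ≤ ε s i * (P (ε s)) i := by
    intro i
    have h1 : ε (Function.update s i (!(s i))) = ε s - (2 * ε s i) • ee N i := by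
      ext j
      rw [PiLp.sub_apply, PiLp.smul_apply, hε, hε, hε]
      by_cases hj : j = i
      · subst hj
        rw [Function.update_self]
        cases s j <;> simp <;> norm_num
      · rw [Function.update_of_ne hj]
        simp [ee, hj]
    have h2 := hs (Function.update s i (!(s i)))
    rw [h1, map_sub, map_smul] at h2
    have h3 : ‖P (ε s) - (2 * ε s i) • P (ee N i)‖ ^ 2 ≤ ‖P (ε s)‖ ^ 2 := by gcongr
    rw [norm_sub_sq_real, inner_smul_right, norm_smul, mul_pow, ← hPP, inner_ee', Real.norm_eq_abs,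
      sq_abs] at h3
    have h4 : (ε s i) ^ 2 = 1 := by rw [hε]; cases s i <;> simp
    nlinarith
  have hsum : (finrank ℝ W : ℝ) ≤ ‖P (ε s)‖ ^ 2 := by
    have h1 : ‖P (ε s)‖ ^ 2 = ∑ i, ε s i * (P (ε s)) i := by
      rw [← real_inner_self_eq_norm_sq, ← hPP, PiLp.inner_apply]
      refine Finset.sum_congr rfl fun i _ => ?_
      simp
    rw [h1, ← trace_proj W]
    exact Finset.sum_le_sum fun i _ => hi i
  have hpos : 0 < ‖P (ε s)‖ := by
    rcases (norm_nonneg (P (ε s))).lt_or_eq with h | h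
    · exact h
    · rw [← h, zero_pow two_ne_zero] at hsum
      have : (0 : ℝ) < finrank ℝ W := by exact_mod_cast hW
      linarith
  refine ⟨‖P (ε s)‖⁻¹ • P (ε s), W.smul_mem _ (W.starProjection_apply_mem _), ?_, ?_⟩
  · rw [norm_smul, norm_inv, norm_norm, inv_mul_cancel₀ hpos.ne']
  · have h1 : ‖P (ε s)‖ ≤ ‖idN N (‖P (ε s)‖⁻¹ • P (ε s))‖ := by
      rw [map_smul, norm_smul, norm_inv, norm_norm, norm_idN, ← div_eq_inv_mul, le_div_iff₀ hpos]
      have h2 : ‖P (ε s)‖ * ‖P (ε s)‖ = ∑ i, ε s i * (P (ε s)) i := by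
        rw [← pow_two, ← real_inner_self_eq_norm_sq, ← hPP, PiLp.inner_apply]
        refine Finset.sum_congr rfl fun i _ => ?_
        simp
      rw [h2]
      refine Finset.sum_le_sum fun i _ => ?_
      refine (le_abs_self _).trans ?_
      rw [abs_mul]
      have h4 : |ε s i| = 1 := by rw [hε]; cases s i <;> simp
      rw [h4, one_mul]
    refine le_trans ?_ h1
    exact Real.sqrt_le_iff.2 ⟨hpos.le, hsum⟩

/-- Lower bound of the Gelfand numbers of the identity. -/
theorem gelfand_ge (N k : ℕ) :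
    ENNReal.ofReal √((N : ℝ) - k) ≤ gelfandNumber (idN N) (closedBall 0 1) k := by
  rcases le_or_gt N k with h | h
  · have : √((N : ℝ) - k) = 0 := Real.sqrt_eq_zero'.2 (by
      have : (N : ℝ) ≤ k := by exact_mod_cast h
      linarith)
    rw [this, ENNReal.ofReal_zero]
    exact zero_le
  unfold gelfandNumber
  refine le_iInf fun L => ?_
  let W : Submodule ℝ (EuclideanSpace ℝ (Fin N)) :=
    LinearMap.ker (LinearMap.pi fun i => (L i).toLinearMap)
  have hW : N ≤ finrank ℝ W + k := by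
    have h1 := LinearMap.finrank_range_add_finrank_ker (LinearMap.pi fun i => (L i).toLinearMap)
    have h2 : finrank ℝ (LinearMap.range (LinearMap.pi fun i => (L i).toLinearMap)) ≤ k := by
      refine (Submodule.finrank_le _).trans ?_
      simp
    rw [finrank_euclideanSpace_fin] at h1
    change N ≤ finrank ℝ (LinearMap.ker (LinearMap.pi fun i => (L i).toLinearMap)) + k
    omega
  obtain ⟨v, hv, hv1, hv2⟩ := exists_large W (by omega)
  have hLv : ∀ i, L i v = 0 := fun i => congrFun (LinearMap.mem_ker.1 hv) i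
  refine le_iSup₂_of_le v (by simpa using hv1) (le_iSup₂_of_le (-v) (by simpa using hv1)
    (le_iSup_of_le (fun i => by simp [hLv]) ?_))
  apply ENNReal.ofReal_le_ofReal
  have h1 : idN N v - idN N (-v) = (2 : ℝ) • idN N v := by rw [map_neg, two_smul]; abel
  rw [h1, norm_smul, Real.norm_of_nonneg (by norm_num : (0 : ℝ) ≤ 2)]
  have h2 : √((N : ℝ) - k) ≤ √(finrank ℝ W : ℝ) := by
    apply Real.sqrt_le_sqrt
    have : (N : ℝ) ≤ finrank ℝ W + k := by exact_mod_cast hW
    linarith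
  linarith

/-- Hilbert–Schmidt bound. -/
lemma hs_bound {N m : ℕ} (R : EuclideanSpace ℝ (Fin N) →L[ℝ] ell2) (hR : ∀ j, ‖R (ee N j)‖ ≤ 1)
    (A : ell2 →L[ℝ] EuclideanSpace ℝ (Fin N)) (hA : ‖A‖ ≤ 1) (x : Fin m → ell2)
    (hx : Orthonormal ℝ x) : ∑ i, ‖R (A (x i))‖ ^ 2 ≤ N := by
  let U := LinearMap.range R.toLinearMap
  let b := stdOrthonormalBasis ℝ U
  have hU : ∀ y, ‖R y‖ ^ 2 = ∑ l, ⟪(R.adjoint (b l : ell2)), y⟫_ℝ ^ 2 := by
    intro y
    have h1 : ‖R y‖ = ‖(⟨R y, ⟨y, rfl⟩⟩ : U)‖ := rfl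
    rw [h1, ← b.sum_sq_norm_inner_right]
    refine Finset.sum_congr rfl fun l _ => ?_
    rw [ContinuousLinearMap.adjoint_inner_left, Submodule.coe_inner, Real.norm_eq_abs, sq_abs]
  have h1 : ∀ l, ∑ i, ⟪(R.adjoint (b l : ell2)), A (x i)⟫_ℝ ^ 2 ≤ ∑ j, ⟪(R.adjoint (b l : ell2)), ee N j⟫_ℝ ^ 2 := by
    intro l
    have h2 : ∀ i, ⟪(R.adjoint (b l : ell2)), A (x i)⟫_ℝ ^ 2 =
        ‖⟪x i, A.adjoint (R.adjoint (b l : ell2))⟫_ℝ‖ ^ 2 := by
      intro i
      rw [ContinuousLinearMap.adjoint_inner_right, real_inner_comm, Real.norm_eq_abs, sq_abs]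
    simp only [h2]
    refine (hx.sum_inner_products_le (s := Finset.univ) _).trans ?_
    have h3 : ‖A.adjoint (R.adjoint (b l : ell2))‖ ≤ ‖R.adjoint (b l : ell2)‖ := by
      refine (A.adjoint.le_of_opNorm_le (c := 1) ?_ _).trans (by rw [one_mul])
      rw [LinearIsometryEquiv.norm_map]
      exact hA
    have h4 : ∑ j, ⟪(R.adjoint (b l : ell2)), ee N j⟫_ℝ ^ 2 = ‖R.adjoint (b l : ell2)‖ ^ 2 := by
      rw [EuclideanSpace.real_norm_sq_eq]
      refine Finset.sum_congr rfl fun j _ => ?_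
      rw [inner_ee']
    rw [h4]
    gcongr
  calc ∑ i, ‖R (A (x i))‖ ^ 2 = ∑ l, ∑ i, ⟪(R.adjoint (b l : ell2)), A (x i)⟫_ℝ ^ 2 := by
        simp only [hU]
        rw [Finset.sum_comm]
    _ ≤ ∑ l, ∑ j, ⟪(R.adjoint (b l : ell2)), ee N j⟫_ℝ ^ 2 := Finset.sum_le_sum fun l _ => h1 l
    _ = ∑ j, ‖R (ee N j)‖ ^ 2 := by
        simp only [hU]
        rw [Finset.sum_comm]
    _ ≤ ∑ _j : Fin N, (1 : ℝ) := Finset.sum_le_sum fun j _ => by
        have := hR j
        have h0 := norm_nonneg (R (ee N j))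
        nlinarith
    _ = N := by simp

/-- Upper bound of the Hilbert numbers of the identity. -/
theorem hilbert_le (N k : ℕ) :
    hilbertNumber (idN N) (closedBall 0 1) k ≤ ENNReal.ofReal √((N : ℝ) / (k + 1)) := by
  unfold hilbertNumber
  refine iSup₂_le fun B hB => iSup_le fun A => iSup₂_le fun a ha => iSup_le fun hA => ?_
  by_contra hcon
  rw [not_le] at hcon
  obtain ⟨c, hc1, hc2⟩ := exists_between hcon
  have hct : c ≠ ⊤ := ne_top_of_lt hc2
  set r := c.toReal with hr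
  have hrc : ENNReal.ofReal r = c := ENNReal.ofReal_toReal hct
  rw [← hrc] at hc1 hc2
  have hr0 : √((N : ℝ) / (k + 1)) < r := by
    have := (ENNReal.ofReal_lt_ofReal_iff_of_nonneg (Real.sqrt_nonneg _)).1 hc1
    exact this
  have hrpos : 0 < r := lt_of_le_of_lt (Real.sqrt_nonneg _) hr0
  have hA1 : ‖A‖ ≤ 1 := by
    refine ContinuousLinearMap.opNorm_le_of_unit_norm zero_le_one fun z hz => ?_
    have h1 := hA z hz.le
    have h2 := hA (-z) (by rw [norm_neg]; exact hz.le)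
    rw [mem_closedBall_zero_iff] at h1 h2
    have h3 := norm_sub_le (A z + a) (A (-z) + a)
    have h4 : A z + a - (A (-z) + a) = (2 : ℝ) • A z := by rw [map_neg, two_smul]; abel
    rw [h4, norm_smul, Real.norm_of_nonneg (by norm_num : (0 : ℝ) ≤ 2)] at h3
    linarith
  set T : ell2 →L[ℝ] ell2 := B ∘L idN N ∘L A with hT
  have hchoice : ∀ m ≤ k + 1, ∃ x : ℕ → ell2, ∀ i < m, ‖x i‖ = 1 ∧ r ≤ ‖T (x i)‖ ∧
      ∀ j < i, ⟪x j, x i⟫_ℝ = 0 := by
    intro m
    induction m with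
    | zero => intro _; exact ⟨fun _ => 0, fun i hi => absurd hi (Nat.not_lt_zero i)⟩
    | succ m ih =>
      intro hm
      obtain ⟨x, hx⟩ := ih (by omega)
      obtain ⟨p, hp1, hp2, hp3⟩ := exists_point T k hc2 hrpos.le
        (fun i : Fin k => if i.1 < m then innerSL ℝ (x i) else 0)
      have hp0 : 0 < ‖p‖ := by
        rcases (norm_nonneg p).lt_or_eq with h | h
        · exact h
        · have : p = 0 := norm_eq_zero.1 h.symm
          rw [this, map_zero, norm_zero] at hp3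
          linarith
      refine ⟨Function.update x m (‖p‖⁻¹ • p), fun i hi => ?_⟩
      rcases Nat.lt_succ_iff_lt_or_eq.1 hi with h' | h'
      · rw [Function.update_of_ne (by omega)]
        refine ⟨(hx i h').1, (hx i h').2.1, fun j hj => ?_⟩
        rw [Function.update_of_ne (by omega)]
        exact (hx i h').2.2 j hj
      · subst h'
        rw [Function.update_self]
        refine ⟨?_, ?_, fun j hj => ?_⟩
        · rw [norm_smul, norm_inv, norm_norm, inv_mul_cancel₀ hp0.ne']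
        · rw [map_smul, norm_smul, norm_inv, norm_norm, ← div_eq_inv_mul, le_div_iff₀ hp0]
          nlinarith
        · rw [Function.update_of_ne (by omega), inner_smul_right]
          have := hp2 ⟨j, by omega⟩
          simp only [hj, if_true, innerSL_apply_apply] at this
          rw [this, mul_zero]
  obtain ⟨x, hx⟩ := hchoice (k + 1) le_rfl
  have hon : Orthonormal ℝ (fun i : Fin (k + 1) => x i) := by
    refine ⟨fun i => (hx i i.2).1, fun i j hij => ?_⟩
    rcases lt_or_gt_of_ne (fun h => hij (Fin.ext h) : i.1 ≠ j.1) with h | h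
    · exact (hx j j.2).2.2 i h
    · rw [real_inner_comm]
      exact (hx i i.2).2.2 j h
  have hR : ∀ j, ‖(B ∘L idN N) (ee N j)‖ ≤ 1 := by
    intro j
    refine (B.le_of_opNorm_le hB _).trans ?_
    have hn : ‖idN N (ee N j)‖ = ∑ i, |(ee N j) i| := norm_idN N _
    refine (one_mul _).le.trans (hn.le.trans ?_)
    rw [Finset.sum_eq_single j]
    · simp [ee]
    · intro i _ hij
      simp [ee, hij]
    · simp
  have h1 := hs_bound (B ∘L idN N) hR A hA1 (fun i : Fin (k + 1) => x i) hon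
  have h2 : ∑ _i : Fin (k + 1), r ^ 2 ≤ ∑ i : Fin (k + 1), ‖(B ∘L idN N) (A (x i))‖ ^ 2 := by
    refine Finset.sum_le_sum fun i _ => ?_
    have := (hx i i.2).2.1
    have h3 : T (x i) = (B ∘L idN N) (A (x i)) := rfl
    rw [h3] at this
    gcongr
  rw [Finset.sum_const, Finset.card_univ, Fintype.card_fin, nsmul_eq_mul] at h2
  have h3 : (N : ℝ) / (k + 1) < r ^ 2 := by
    rw [Real.sqrt_lt' hrpos] at hr0
    exact hr0
  rw [div_lt_iff₀ (by positivity)] at h3
  have h4 := h2.trans h1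
  push_cast at h4
  linarith

end Pool.Agent.KS6_83.GH
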