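import Pool.Agent.KS6_83.GH.A

/-!
# The factor `√n` in the inequality between Gelfand and Hilbert numbers is nearly optimal
-/

set_option autoImplicit false

open Module Set Filter Metric
open scoped ENNReal InnerProductSpace Topology

noncomputable section

namespace Pool.Agent.KS6_83.GH

open Pool.Agent.Results.MP_93c8fe_an.GelfandHilbertNumbers

lemma prod_hilbert_le (N n : ℕ) (hn : 1 ≤ n) :
    (∏ k ∈ Finset.range n, hilbertNumber (idN N) (closedBall 0 1) k) ^ (1 / n : ℝ) ≤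
      ENNReal.ofReal (√N / ((n.factorial : ℝ) ^ (1 / (2 * n) : ℝ))) := by
  have hf : ∀ m : ℕ, ∏ k ∈ Finset.range m, √((N : ℝ) / (k + 1)) = √((N : ℝ) ^ m / m.factorial) := by
    intro m
    induction m with
    | zero => simp
    | succ m ih =>
      rw [Finset.prod_range_succ, ih, ← Real.sqrt_mul (by positivity)]
      congr 1
      rw [Nat.factorial_succ]
      push_cast
      field_simp
      ring
  have h1 : ∏ k ∈ Finset.range n, hilbertNumber (idN N) (closedBall 0 1) k ≤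
      ENNReal.ofReal √((N : ℝ) ^ n / n.factorial) := by
    rw [← hf n, ENNReal.ofReal_prod_of_nonneg fun k _ => Real.sqrt_nonneg _]
    exact Finset.prod_le_prod' fun k _ => hilbert_le N k
  refine (ENNReal.rpow_le_rpow h1 (by positivity)).trans (le_of_eq ?_)
  rw [ENNReal.ofReal_rpow_of_nonneg (Real.sqrt_nonneg _) (by positivity)]
  congr 1
  have hn0 : (n : ℝ) ≠ 0 := by positivity
  rw [Real.sqrt_div (by positivity), Real.div_rpow (Real.sqrt_nonneg _) (Real.sqrt_nonneg _)]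
  congr 1
  · rw [Real.sqrt_eq_rpow, Real.sqrt_eq_rpow, ← Real.rpow_natCast, ← Real.rpow_mul (by positivity),
      ← Real.rpow_mul (by positivity)]
    congr 1
    field_simp
  · rw [Real.sqrt_eq_rpow, ← Real.rpow_mul (by positivity)]
    congr 1
    field_simp

/-- `√n` cannot be replaced by anything smaller than `(n!)^{1/(2n)}`. -/
theorem factor_ge (n : ℕ) (hn : 1 ≤ n) (K : ℝ) (hK : K < (n.factorial : ℝ) ^ (1 / (2 * n) : ℝ)) :
    ∃ N : ℕ, ENNReal.ofReal K *
        (∏ k ∈ Finset.range n, hilbertNumber (idN N) (closedBall 0 1) k) ^ (1 / n : ℝ) <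
      gelfandNumber (idN N) (closedBall 0 1) (n - 1) := by
  set F : ℝ := (n.factorial : ℝ) ^ (1 / (2 * n) : ℝ) with hF
  have hF0 : 0 < F := by positivity
  set ρ : ℝ := max (K / F) 0 with hρ
  have hρ0 : 0 ≤ ρ := le_max_right _ _
  have hρ1 : ρ < 1 := max_lt ((div_lt_one hF0).2 hK) one_pos
  have hρ2 : 0 < 1 - ρ ^ 2 := by nlinarith
  obtain ⟨N, hN⟩ := exists_nat_gt (n / (1 - ρ ^ 2) : ℝ)
  rw [div_lt_iff₀ hρ2] at hN
  refine ⟨N, ?_⟩
  have h1 : ENNReal.ofReal K * (∏ k ∈ Finset.range n, hilbertNumber (idN N) (closedBall 0 1) k) ^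
      (1 / n : ℝ) ≤ ENNReal.ofReal (ρ * √N) := by
    refine (mul_le_mul' le_rfl (prod_hilbert_le N n hn)).trans ?_
    rw [← ENNReal.ofReal_mul' (by positivity)]
    apply ENNReal.ofReal_le_ofReal
    have h2 : K * (√N / F) = K / F * √N := by ring
    rw [h2]
    exact mul_le_mul_of_nonneg_right (le_max_left _ _) (Real.sqrt_nonneg _)
  refine lt_of_le_of_lt h1 (lt_of_lt_of_le ?_ (gelfand_ge N (n - 1)))
  have hn1 : (((n - 1 : ℕ) : ℝ)) = n - 1 := by push_cast [Nat.cast_sub hn]; ring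
  have h3 : ρ ^ 2 * N < N - ((n - 1 : ℕ) : ℝ) := by
    rw [hn1]; linarith
  have h4 : 0 < (N : ℝ) - ((n - 1 : ℕ) : ℝ) := lt_of_le_of_lt (by positivity) h3
  rw [ENNReal.ofReal_lt_ofReal_iff (Real.sqrt_pos.2 h4)]
  rw [show ρ * √N = √(ρ ^ 2 * N) by rw [Real.sqrt_mul (by positivity), Real.sqrt_sq hρ0]]
  exact Real.sqrt_lt_sqrt (by positivity) h3

lemma sqrt_lt_factorial (n : ℕ) (hn : 1 ≤ n) :
    √((n : ℝ) / Real.exp 1) < (n.factorial : ℝ) ^ (1 / (2 * n) : ℝ) := by
  have hn0 : (0 : ℝ) < n := by exact_mod_cast hn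
  have h1 : (n : ℝ) ^ n / n.factorial < Real.exp n := by
    have h2 := Real.sum_le_exp_of_nonneg hn0.le (n + 1)
    rw [Finset.sum_range_succ] at h2
    have h3 : (1 : ℝ) ≤ ∑ i ∈ Finset.range n, (n : ℝ) ^ i / i.factorial := by
      refine le_trans ?_ (Finset.single_le_sum (f := fun i : ℕ => (n : ℝ) ^ i / i.factorial)
        (fun i _ => by positivity) (Finset.mem_range.2 hn))
      simp
    linarith
  have h2 : ((n : ℝ) / Real.exp 1) ^ n < n.factorial := by
    rw [div_pow, ← Real.exp_nat_mul, mul_one, div_lt_iff₀ (Real.exp_pos _)]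
    rw [div_lt_iff₀ (by positivity)] at h1
    linarith
  have h3 : √((n : ℝ) / Real.exp 1) = (((n : ℝ) / Real.exp 1) ^ n) ^ (1 / (2 * n) : ℝ) := by
    rw [Real.sqrt_eq_rpow, ← Real.rpow_natCast, ← Real.rpow_mul (by positivity)]
    congr 1
    field_simp
  rw [h3]
  exact Real.rpow_lt_rpow (by positivity) h2 (by positivity)

/-- `n^{n/2}` cannot be replaced by anything smaller than `√(n!)` in the product form. -/
theorem prod_factor_ge (n : ℕ) (hn : 1 ≤ n) (K : ℝ) (hK : K < √(n.factorial : ℝ)) :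
    ∃ N : ℕ, ENNReal.ofReal K * ∏ k ∈ Finset.range n, hilbertNumber (idN N) (closedBall 0 1) k <
      ∏ k ∈ Finset.range n, gelfandNumber (idN N) (closedBall 0 1) k := by
  have hn0 : (n : ℝ) ≠ 0 := by positivity
  set K' : ℝ := (max K 0) ^ (1 / n : ℝ) with hK'
  have hK0 : 0 ≤ max K 0 := le_max_right _ _
  have hs : √(n.factorial : ℝ) ^ (1 / n : ℝ) = (n.factorial : ℝ) ^ (1 / (2 * n) : ℝ) := by
    rw [Real.sqrt_eq_rpow, ← Real.rpow_mul (by positivity)]
    congr 1
    field_simp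
  have h1 : K' < (n.factorial : ℝ) ^ (1 / (2 * n) : ℝ) := by
    rw [← hs]
    apply Real.rpow_lt_rpow hK0 (max_lt hK (Real.sqrt_pos.2 (by positivity))) (by positivity)
  obtain ⟨N, hN⟩ := factor_ge n hn K' h1
  refine ⟨N, ?_⟩
  have h2 := ENNReal.rpow_lt_rpow hN (show (0 : ℝ) < n by positivity)
  rw [ENNReal.mul_rpow_of_nonneg _ _ (by positivity), ← ENNReal.rpow_mul, one_div,
    inv_mul_cancel₀ hn0, ENNReal.rpow_one, ENNReal.ofReal_rpow_of_nonneg (by positivity)
    (by positivity), hK', ← Real.rpow_mul hK0, one_div, inv_mul_cancel₀ hn0, Real.rpow_one,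
    ENNReal.rpow_natCast] at h2
  have h3 : gelfandNumber (idN N) (closedBall 0 1) (n - 1) ^ n ≤
      ∏ k ∈ Finset.range n, gelfandNumber (idN N) (closedBall 0 1) k := by
    have : ∏ _k ∈ Finset.range n, gelfandNumber (idN N) (closedBall 0 1) (n - 1) ≤
        ∏ k ∈ Finset.range n, gelfandNumber (idN N) (closedBall 0 1) k :=
      Finset.prod_le_prod' fun k hk => gelfand_anti _ _ (by
        have := Finset.mem_range.mp hk
        omega)
    simpa using this
  refine lt_of_le_of_lt ?_ (h2.trans_le h3)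
  exact mul_le_mul' (ENNReal.ofReal_le_ofReal (le_max_left _ _)) le_rfl

end Pool.Agent.KS6_83.GH
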